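import Pool.Agent.KottwitzG.Zero

set_option autoImplicit false

namespace Pool.Agent.Results.MP_7d29e8_ag.FractionalForm

open Finset Pool.Agent.KottwitzG

/-- **Result.** Let `H` be a quasi-split connected reductive group over `ℚ_p` with based root datum
`R`, let `G` be the inner form of `H` given by the coweight `∑ c_a α_a^∨` of `H_ad` (every inner form
is of this form), let `b ∈ G` be basic with Kottwitz invariant the class of `y ∈ X_*(T)`, and let
`mu`, `mu'` be dominant (the dominant representatives of `μ⁻¹`, `μ'⁻¹`). Let `e`, `m`, `m'` be the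
coordinates of the adjoint parts of `y`, `mu`, `mu'` (first part: they exist and are unique), so that
`G_b` is the inner form given by `c + e`. Second part: `[b'] ↦ [b' b⁻¹]` maps `B(G, mu)` onto
`B(G_b, mu')` iff `mu` and `mu' + y` have the same class in `π_1(G)_Γ`, and `m(O) - {-c(O)}` equals
`m'(O) - {-(c + e)(O)}` for every orbit `O` of simple roots; here `f(O)` is the sum of `f` over `O`
and `{x}` is the fractional part of `x`. Third part: for given `G`, `mu`, `b` the solutions `mu'`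
are the dominant members of one class in `X_*(T)_Γ`. -/
theorem result {Γ V D : Type} [Group Γ] [Fintype Γ] [AddCommGroup V] [Module ℚ V]
    [DistribMulAction Γ V] [Fintype D] [DecidableEq D] [MulAction Γ D] (R : Datum Γ V D) :
    (∀ v : V, ∃! f : D → ℚ, ∀ a, R.root a v = R.root a (R.comb f)) ∧
    (∀ c e m m' : D → ℚ, ∀ y ∈ R.Y, ∀ mu ∈ R.Y, ∀ mu' ∈ R.Y,
      (∀ a, ∃ z : ℤ, R.root a (R.comb c) = z) →
      (∀ a, R.root a y = R.root a (R.comb e)) →
      (∀ a, R.root a mu = R.root a (R.comb m)) → (∀ a, R.root a mu' = R.root a (R.comb m')) →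
      (∀ a, 0 ≤ R.root a mu) → (∀ a, 0 ≤ R.root a mu') →
      (R.shift y e '' R.Kott c mu = R.Kott (fun a => c a + e a) mu' ↔
        (QuotientAddGroup.mk mu : V ⧸ R.N) = QuotientAddGroup.mk mu' + QuotientAddGroup.mk y ∧
        ∀ a, ∑ b ∈ orb Γ a, m b - Int.fract (-∑ b ∈ orb Γ a, c b) =
          ∑ b ∈ orb Γ a, m' b - Int.fract (-∑ b ∈ orb Γ a, (c b + e b)))) ∧
    ∀ c e : D → ℚ, ∀ y ∈ R.Y, ∀ mu ∈ R.Y, ∀ mu' ∈ R.Y, ∀ mu'' ∈ R.Y,
      (∀ a, ∃ z : ℤ, R.root a (R.comb c) = z) →
      (∀ a, R.root a y = R.root a (R.comb e)) →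
      (∀ a, 0 ≤ R.root a mu) → (∀ a, 0 ≤ R.root a mu') → (∀ a, 0 ≤ R.root a mu'') →
      R.shift y e '' R.Kott c mu = R.Kott (fun a => c a + e a) mu' →
      (R.shift y e '' R.Kott c mu = R.Kott (fun a => c a + e a) mu'' ↔ mu' - mu'' ∈ R.I) :=
  ⟨adjoint_part R, fun c e m m' y _ mu hmu mu' hmu' _ he hm hm' hd hd' =>
    frac_form R c e m m' y mu mu' he hm hm' hmu hmu' hd hd',
    fun c e y _ mu hmu mu' hmu' mu'' hmu'' _ he hd hd' hd'' hsol =>
      unique_class R c e y mu mu' mu'' he hmu hmu' hmu'' hd hd' hd'' hsol⟩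

end Pool.Agent.Results.MP_7d29e8_ag.FractionalForm
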