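import Pool.Agent.KottwitzG.Proof

set_option autoImplicit false

namespace Pool.Agent.Results.MP_7d29e8_ag.ReductiveCriterion

open Finset Pool.Agent.KottwitzG

/-- **Result.** Let `H` be a quasi-split connected reductive group over `ℚ_p` with based root datum
`R`, let `G` be the inner form of `H` given by the coweight `∑ c_a α_a^∨` of `H_ad` (every inner form
is of this form), let `b ∈ G` be basic with Kottwitz invariant the class of `y ∈ X_*(T)`; the
adjoint part of `y` is `∑ e_a α_a^∨` (first part: `e` exists and is unique), so `G_b` is the inner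
form given by `c + e`. Let `mu`, `mu'` be dominant (the dominant representatives of `μ⁻¹`, `μ'⁻¹`).
Then `[b'] ↦ [b' b⁻¹]` maps `B(G, mu)` onto `B(G_b, mu')` iff `mu`, `mu'` and `y` match in
`π_1(G)_Γ` and the Galois average of `mu - mu' - y` has, at the coroot `α_a^∨`, the coordinate
`(⌈c(O)⌉ - ⌈(c + e)(O)⌉) / |O|`, where `O` is the orbit of `a` and `c(O)` the sum of `c` over `O`. -/
theorem result {Γ V D : Type} [Group Γ] [Fintype Γ] [AddCommGroup V] [Module ℚ V]
    [DistribMulAction Γ V] [Fintype D] [DecidableEq D] [MulAction Γ D] (R : Datum Γ V D) :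
    (∀ y : V, ∃! e : D → ℚ, ∀ a, R.root a y = R.root a (R.comb e)) ∧
    ∀ c : D → ℚ, (∀ a, ∃ m : ℤ, R.root a (R.comb c) = m) →
    ∀ y ∈ R.Y, ∀ e : D → ℚ, (∀ a, R.root a y = R.root a (R.comb e)) →
    ∀ mu ∈ R.Y, ∀ mu' ∈ R.Y, (∀ a, 0 ≤ R.root a mu) → (∀ a, 0 ≤ R.root a mu') →
      (R.shift y e '' R.Kott c mu = R.Kott (fun a => c a + e a) mu' ↔
        mu - mu' - y ∈ R.N ∧ avg Γ (mu - mu' - y) =
          R.comb (fun a => (((⌈∑ b ∈ orb Γ a, c b⌉ - ⌈∑ b ∈ orb Γ a, (c b + e b)⌉ : ℤ) : ℚ) /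
            (orb Γ a).card))) :=
  ⟨adjoint_part R, fun c _ y _ e he mu hmu mu' hmu' hd hd' =>
    criterion R c e y he mu mu' hmu hmu' hd hd'⟩

end Pool.Agent.Results.MP_7d29e8_ag.ReductiveCriterion
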