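import Pool.Agent.Kottwitz.WProof

set_option autoImplicit false

namespace Pool.Agent.Results.MP_7d29e8_ag.SemisimpleUnits

open Finset Pool.Agent.Kottwitz Pool.Agent.Kottwitz.W

/-- **Result.** All data `(G, μ, b, μ')` with `G` the group of units of a semisimple `ℚ_p`-algebra,
that is `G = ∏ i, Res (G_{k i})`. Here `b` is basic with Kottwitz invariant `(k' i - k i)`, and
`mu`, `mu'` are the dominant representatives of `μ⁻¹`, `μ'⁻¹`. First part: the bijection
`B(G) ≅ B(G_b)` carries `B(G, μ⁻¹)` onto `B(G_b, μ'⁻¹)` iff `∑ t, mu i t + chr (k i)` equals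
`∑ t, mu' i t + chr (k' i)` for every `i`. Second part: for given `G, μ, b` such a `μ'` exists iff
every vector `∑ t, mu i t + chr (k i) - chr (k' i)` is decreasing and the differences of its entries
are at most `d i`. -/
theorem result {ι : Type} (n d : ι → ℕ) (hn : ∀ i, 1 ≤ n i) (hd : ∀ i, 1 ≤ d i)
    (k k' : ι → ℤ) (mu : ∀ i, Fin (d i) → Fin (n i) → ℤ) (h : ∀ i t, IsMinDom (mu i t)) :
    (∀ mu' : ∀ i, Fin (d i) → Fin (n i) → ℤ, (∀ i t, IsMinDom (mu' i t)) →
      (shiftB n k k' '' KottB n d k mu = KottB n d k' mu' ↔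
        ∀ i j, ∑ t, mu i t j + chr (n i) (k i) j = ∑ t, mu' i t j + chr (n i) (k' i) j)) ∧
    ((∃ mu' : ∀ i, Fin (d i) → Fin (n i) → ℤ, (∀ i t, IsMinDom (mu' i t)) ∧
      shiftB n k k' '' KottB n d k mu = KottB n d k' mu') ↔
      ∀ i, (Antitone fun j => ∑ t, mu i t j + chr (n i) (k i) j - chr (n i) (k' i) j) ∧
      ∀ j l, (∑ t, mu i t j + chr (n i) (k i) j - chr (n i) (k' i) j) -
        (∑ t, mu i t l + chr (n i) (k i) l - chr (n i) (k' i) l) ≤ d i) :=
  semisimple n d hn hd k k' mu h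

end Pool.Agent.Results.MP_7d29e8_ag.SemisimpleUnits
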